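import Mathlib
import Pool.Agent.N290.RJ.Defs
import Pool.Agent.N290.RJ.Un
import Pool.Agent.N290.RJ.Stm

/-!
# Riccati recursion for the corona problem on the ball of `ℂ^(d+1)`: the kernel is locally bounded
in `L¹`

Project RJ (helper290); the case `d = 1` is `Pool.Agent.N738.RI.C8` (helper738). (helper568)
-/

set_option autoImplicit false

open Complex MeasureTheory Set Filter Topology
open scoped ENNReal

namespace Pool.Agent.N568.RJ

open Pool.Agent.N290.RJ hiding ker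

noncomputable section

variable {d : ℕ}

theorem ip_add_right (a b c : E d) : ip a (b + c) = ip a b + ip a c := by
  rw [← ip_conj, ip_add_left, map_add, ip_conj, ip_conj]

theorem ip_smul_right (t : ℂ) (a b : E d) : ip a (t • b) = starRingEnd ℂ t * ip a b := by
  rw [← ip_conj, ip_smul_left, map_mul, ip_conj]

/-- The formula for `Dl`. -/
theorem Dl_eq (z w : E d) : Dl z w = (1 - N z) * N (w - z) + ‖ip z (w - z)‖ ^ 2 := by
  obtain ⟨u, rfl⟩ : ∃ u, w = z + u := ⟨w - z, by abel⟩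
  have h1 : z + u - z = u := by abel
  rw [h1]
  unfold Dl
  rw [ip_add_right, ip_self, N_add]
  simp only [Complex.sq_norm, Complex.normSq_apply, Complex.sub_re, Complex.sub_im, Complex.add_re,
    Complex.add_im, Complex.one_re, Complex.one_im, Complex.ofReal_re, Complex.ofReal_im]
  ring

theorem Dl_ge (z w : E d) : (1 - N z) * N (w - z) ≤ Dl z w := by
  rw [Dl_eq]
  have := sq_nonneg ‖ip z (w - z)‖
  linarith

theorem norm_le_nm (z : E d) : ‖z‖ ≤ nm z := by
  have h1 : ‖z.1‖ ≤ nm z := by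
    unfold nm N
    apply Real.le_sqrt_of_sq_le
    have : 0 ≤ ∑ i, ‖z.2 i‖ ^ 2 := by positivity
    linarith
  have h2 : ‖z.2‖ ≤ nm z := by
    rw [pi_norm_le_iff_of_nonneg (nm_nonneg z)]
    intro i
    unfold nm N
    apply Real.le_sqrt_of_sq_le
    have h3 : ‖z.2 i‖ ^ 2 ≤ ∑ i, ‖z.2 i‖ ^ 2 :=
      Finset.single_le_sum (f := fun i => ‖z.2 i‖ ^ 2) (fun i _ => sq_nonneg _) (Finset.mem_univ i)
    have h4 := sq_nonneg ‖z.1‖
    linarith
  rw [Prod.norm_def]
  exact max_le h1 h2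

theorem ip_le {r : ℝ} (hr : 0 ≤ r) {z w : E d} (hz : nm z ≤ r) (hw : w ∈ B d) :
    ‖ip z w‖ ≤ r := by
  have h1 := N_nonneg (z + (-(ip z w)) • w)
  rw [N_add, N_smulc, ip_smul_right, norm_neg] at h1
  have h2 : (starRingEnd ℂ (-(ip z w)) * ip z w).re = - ‖ip z w‖ ^ 2 := by
    have h3 := mulconj (ip z w)
    have h4 : starRingEnd ℂ (-(ip z w)) * ip z w = -((‖ip z w‖ ^ 2 : ℝ) : ℂ) := by
      rw [← h3, map_neg]
      ring
    rw [h4, Complex.neg_re, Complex.ofReal_re]
  rw [h2] at h1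
  have h3 : N w < 1 := hw
  have h4 : N z ≤ r ^ 2 := by
    rw [← nm_sq]
    exact pow_le_pow_left₀ (nm_nonneg z) hz 2
  have h5 : ‖ip z w‖ ^ 2 * N w ≤ ‖ip z w‖ ^ 2 * 1 :=
    mul_le_mul_of_nonneg_left h3.le (sq_nonneg _)
  have h6 : ‖ip z w‖ ^ 2 ≤ r ^ 2 := by linarith
  exact (pow_le_pow_iff_left₀ (norm_nonneg _) hr two_ne_zero).1 h6

theorem ker_le {c r : ℝ} (hc : 0 < c) (hr0 : 0 ≤ r) (hr1 : r < 1) {z w : E d} (hr : nm z ≤ r)
    (hw : w ∈ B d) (hz : c ^ 2 ≤ 1 - N z) :
    Pool.Agent.N290.RJ.ker z w ≤ 2 ^ d / ((1 - r) * (c * ‖w - z‖) ^ (2 * d + 1)) := by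
  unfold Pool.Agent.N290.RJ.ker
  by_cases h : w = z
  · subst h
    have h0 : Dl w w = 0 := by
      rw [Dl_eq, sub_self]
      simp [N, ip]
    rw [h0]
    simp
  · have hn : 0 < ‖w - z‖ := norm_pos_iff.2 (sub_ne_zero.2 h)
    have h1 : c * ‖w - z‖ ≤ Real.sqrt (Dl z w) := by
      apply Real.le_sqrt_of_sq_le
      refine le_trans ?_ (Dl_ge z w)
      rw [mul_pow]
      have h2 : ‖w - z‖ ^ 2 ≤ N (w - z) := by
        rw [← nm_sq]
        exact pow_le_pow_left₀ (norm_nonneg _) (norm_le_nm _) 2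
      have h3 := N_nonneg (w - z)
      exact mul_le_mul hz h2 (by positivity) ((sq_nonneg c).trans hz)
    have h2 := ip_le hr0 hr hw
    have h3 : ‖1 - ip z w‖ ≤ 2 := by
      have := norm_sub_le (1 : ℂ) (ip z w)
      rw [norm_one] at this
      linarith
    have h4 : 1 - r ≤ ‖1 - ip z w‖ := by
      have := norm_sub_norm_le (1 : ℂ) (ip z w)
      rw [norm_one] at this
      linarith
    have h5 : 0 < 1 - r := by linarith
    have h6 : 0 < c * ‖w - z‖ := by positivity
    exact div_le_div₀ (by positivity) (pow_le_pow_left₀ (norm_nonneg _) h3 d) (by positivity)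
      (mul_le_mul h4 (pow_le_pow_left₀ h6.le h1 _) (by positivity) (norm_nonneg _))

theorem haar : (volume : Measure (E d)).IsAddHaarMeasure := by
  have h : (volume : Measure (Fin d → ℂ)).IsAddHaarMeasure := by
    rw [volume_pi]
    infer_instance
  rw [Measure.volume_eq_prod]
  infer_instance

theorem finrank_E : Module.finrank ℝ (E d) - 1 = 2 * d + 1 := by
  have h : Module.finrank ℝ (E d) = 2 + d * 2 := by
    rw [Module.finrank_prod, Module.finrank_pi_fintype]
    simp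
  rw [h]
  omega

theorem int_ball {c K : ℝ} (hc : 0 < c) :
    IntegrableOn (fun u : E d => K / (c * ‖u‖) ^ (2 * d + 1)) (Metric.ball 0 2) := by
  have := haar (d := d)
  rw [integrableOn_fun_norm_addHaar (volume : Measure (E d))
    (f := fun y : ℝ => K / (c * y) ^ (2 * d + 1)), finrank_E]
  have h1 : IntegrableOn (fun _ : ℝ => K / c ^ (2 * d + 1)) (Ioo (0 : ℝ) 2) := by
    apply integrableOn_const
    · rw [Real.volume_Ioo]
      exact ENNReal.ofReal_ne_top
    · simp
  refine h1.congr_fun ?_ measurableSet_Ioo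
  intro y hy
  have hy0 : 0 < y := hy.1
  simp only [smul_eq_mul, mul_pow]
  field_simp

/-- **C8.** -/
theorem C8_proof (d : ℕ) : C8 d := by
  intro r hr0 hr1
  have := haar (d := d)
  obtain ⟨c, hc⟩ : ∃ c, c = Real.sqrt (1 - r ^ 2) := ⟨_, rfl⟩
  have hr2 : 0 < 1 - r ^ 2 := by nlinarith
  have hc0 : 0 < c := by
    rw [hc]
    exact Real.sqrt_pos.2 hr2
  have hc2 : c ^ 2 = 1 - r ^ 2 := by
    rw [hc]
    exact Real.sq_sqrt hr2.le
  obtain ⟨K, hK⟩ : ∃ K : ℝ, K = 2 ^ d / (1 - r) := ⟨_, rfl⟩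
  have hr3 : 0 < 1 - r := by linarith
  have hK0 : 0 < K := by
    rw [hK]
    positivity
  have hI := int_ball (d := d) (K := K) hc0
  have hfin : ∫⁻ u in Metric.ball (0 : E d) 2, ENNReal.ofReal (K / (c * ‖u‖) ^ (2 * d + 1)) ≠ ⊤ := by
    have h1 := hI.2
    rw [hasFiniteIntegral_iff_ofReal (Filter.Eventually.of_forall fun u => by positivity)] at h1
    exact h1.ne
  refine ⟨(∫⁻ u in Metric.ball (0 : E d) 2,
    ENNReal.ofReal (K / (c * ‖u‖) ^ (2 * d + 1))).toReal, ?_⟩
  intro z hz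
  rw [ENNReal.ofReal_toReal hfin]
  have hz2 : c ^ 2 ≤ 1 - N z := by
    rw [hc2, ← nm_sq]
    have := pow_le_pow_left₀ (nm_nonneg z) hz 2
    linarith
  have hz1 : ‖z‖ < 1 := lt_of_le_of_lt ((norm_le_nm z).trans hz) hr1
  calc ∫⁻ w in B d, ENNReal.ofReal (Pool.Agent.N290.RJ.ker z w)
      ≤ ∫⁻ w in B d, (Metric.ball (0 : E d) 2).indicator
          (fun u => ENNReal.ofReal (K / (c * ‖u‖) ^ (2 * d + 1))) (w - z) := by
        refine setLIntegral_mono' B_meas fun w hw => ?_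
        have hw1 : ‖w‖ < 1 := lt_of_le_of_lt (norm_le_nm w) (mem_B_nm.1 hw)
        have hwz : w - z ∈ Metric.ball (0 : E d) 2 := by
          rw [mem_ball_zero_iff]
          have := norm_sub_le w z
          linarith
        rw [indicator_of_mem hwz]
        refine ENNReal.ofReal_le_ofReal ((ker_le hc0 hr0 hr1 hz hw hz2).trans (le_of_eq ?_))
        rw [hK, div_div]
    _ ≤ ∫⁻ w, (Metric.ball (0 : E d) 2).indicator
          (fun u => ENNReal.ofReal (K / (c * ‖u‖) ^ (2 * d + 1))) (w - z) :=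
        setLIntegral_le_lintegral _ _
    _ = ∫⁻ u, (Metric.ball (0 : E d) 2).indicator
          (fun u => ENNReal.ofReal (K / (c * ‖u‖) ^ (2 * d + 1))) u :=
        lintegral_sub_right_eq_self (fun u => (Metric.ball (0 : E d) 2).indicator
          (fun u => ENNReal.ofReal (K / (c * ‖u‖) ^ (2 * d + 1))) u) z
    _ = _ := lintegral_indicator measurableSet_ball _

end

end Pool.Agent.N568.RJ
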